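import Mathlib

/-!
# A local realizer of the Boolean lattice with six atoms: the table
-/

set_option autoImplicit false

namespace Pool.Agent.V11120.LD

/-- the positions (one byte each, zero for missing elements) in the eight partial linear
extensions -/
def table : ℕ := 0x30201000000000000000000000000040000000000000000000000000000000000000000000000000000000000000000000000000000000000000000000000000000000000000000000000000000000000000000000000000000000000000000000000000000000000000000000001000000040000000300000002000000000000000000000000000000000e0d0c00070000000600000005000000040000000000000000000000000000000b0a0908000000000300000002000000010000000000000000000000000000000000000c0b00000a00000009000000080000000706050403000000000000000000000002010000000000000000000000000000003f3e3d3b3c3a39381f1e1d1b1c1a19182f2e2d2b2c2a2928171615131412111037363533343231300f0e0d0b0c0a0900272625232422212008070604050302013f3e3d3b1f1e1d1b3c3a39381c1a19182f2e2d2b171615132c2a292814121110373635330f0e0d0b343231300c0a0900272625230807060424222120050302013f3e201f3d3b1e1c3c3a1d1b39381a190037100f36340e0c35330d0b32310a09302f18172e2c16142d2b15132a291211282708072624060425230503222102013f203e1f3d1e3b1c3c1d3a1b391a38190010370f360e340c350d330b320a310930182f172e162c142d152b132a12291128082707260624042505230322022101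

/-- the position of the element number `a` in the partial linear extension number `i` -/
def tb (i a : ℕ) : ℕ := (table >>> (8 * (64 * i + a))) % 256

end Pool.Agent.V11120.LD
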